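import Mathlib

/-!
Let `K` be a subgroup of a finite group and `B` a minimal `K`-invariant subgroup with trivial
centre. Then the normal subgroups of `B` are perfect.
-/

namespace Pool.Agent.H4.UM

open scoped commutatorElement

variable {H : Type*} [Group H]

/-- `N` is a normal subgroup of `B`. -/
def NB (B N : Subgroup H) : Prop := N ≤ B ∧ ∀ b ∈ B, ∀ n ∈ N, b * n * b⁻¹ ∈ N

/-- The product of two normal subgroups of `B`. -/
def pr (B M N : Subgroup H) (hM : NB B M) (hN : NB B N) : Subgroup H where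
  carrier := {x | ∃ m ∈ M, ∃ n ∈ N, m * n = x}
  one_mem' := ⟨1, M.one_mem, 1, N.one_mem, by simp⟩
  mul_mem' := by
    rintro _ _ ⟨m, hm, n, hn, rfl⟩ ⟨m', hm', n', hn', rfl⟩
    refine ⟨m * m', M.mul_mem hm hm', m'⁻¹ * n * m'⁻¹⁻¹ * n', N.mul_mem (hN.2 _ (B.inv_mem (hM.1 hm')) _ hn) hn', by group⟩
  inv_mem' := by
    rintro _ ⟨m, hm, n, hn, rfl⟩
    exact ⟨m⁻¹, M.inv_mem hm, m * n⁻¹ * m⁻¹, hN.2 _ (hM.1 hm) _ (N.inv_mem hn), by group⟩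

lemma mem_pr {B M N : Subgroup H} (hM : NB B M) (hN : NB B N) {x : H} :
    x ∈ pr B M N hM hN ↔ ∃ m ∈ M, ∃ n ∈ N, m * n = x := Iff.rfl

lemma NB_pr {B M N : Subgroup H} (hM : NB B M) (hN : NB B N) : NB B (pr B M N hM hN) := by
  refine ⟨?_, ?_⟩
  · rintro _ ⟨m, hm, n, hn, rfl⟩
    exact B.mul_mem (hM.1 hm) (hN.1 hn)
  · rintro b hb _ ⟨m, hm, n, hn, rfl⟩
    exact ⟨b * m * b⁻¹, hM.2 b hb m hm, b * n * b⁻¹, hN.2 b hb n hn, by group⟩

lemma NB_inf {B M N : Subgroup H} (hM : NB B M) (hN : NB B N) : NB B (M ⊓ N) :=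
  ⟨fun _ hx => hM.1 hx.1, fun b hb n hn => ⟨hM.2 b hb n hn.1, hN.2 b hb n hn.2⟩⟩

/-- The conjugate `h N h⁻¹`. -/
def cj (h : H) (N : Subgroup H) : Subgroup H where
  carrier := {x | h⁻¹ * x * h ∈ N}
  one_mem' := by simp
  mul_mem' := by
    intro a b ha hb
    have := N.mul_mem ha hb
    simpa [mul_assoc] using this
  inv_mem' := by
    intro a ha
    have := N.inv_mem ha
    simpa [mul_assoc] using this

lemma mem_cj {h : H} {N : Subgroup H} {x : H} : x ∈ cj h N ↔ h⁻¹ * x * h ∈ N := Iff.rfl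

lemma NB_cj {K B N : Subgroup H} (hBK : ∀ g ∈ K, ∀ b ∈ B, g * b * g⁻¹ ∈ B) (hN : NB B N)
    {h : H} (hh : h ∈ K) : NB B (cj h N) := by
  refine ⟨?_, ?_⟩
  · intro x hx
    have h1 : h⁻¹ * x * h ∈ B := hN.1 hx
    have h2 := hBK h hh _ h1
    have e : h * (h⁻¹ * x * h) * h⁻¹ = x := by group
    rwa [e] at h2
  · intro b hb n hn
    have h1 : h⁻¹ * b * h ∈ B := by
      have := hBK _ (K.inv_mem hh) _ hb
      rwa [inv_inv] at this
    have h2 := hN.2 _ h1 _ hn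
    show h⁻¹ * (b * n * b⁻¹) * h ∈ N
    have e : h⁻¹ * (b * n * b⁻¹) * h = h⁻¹ * b * h * (h⁻¹ * n * h) * (h⁻¹ * b * h)⁻¹ := by group
    rw [e]; exact h2

lemma exists_minNB [Finite H] {B : Subgroup H} (hB : B ≠ ⊥) :
    ∃ S : Subgroup H, NB B S ∧ S ≠ ⊥ ∧ ∀ T : Subgroup H, NB B T → T ≤ S → T = ⊥ ∨ T = S := by
  classical
  have hne : ({S | NB B S ∧ S ≠ ⊥} : Set (Subgroup H)).Nonempty :=
    ⟨B, ⟨le_refl _, fun b hb n hn => B.mul_mem (B.mul_mem hb hn) (B.inv_mem hb)⟩, hB⟩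
  obtain ⟨S, hS⟩ := (Set.toFinite ({S | NB B S ∧ S ≠ ⊥} : Set (Subgroup H))).exists_minimal hne
  refine ⟨S, hS.1.1, hS.1.2, fun T hT hTS => ?_⟩
  by_cases h : T = ⊥
  · exact Or.inl h
  · exact Or.inr (le_antisymm hTS (hS.2 ⟨hT, h⟩ hTS))

/-- `N` is invariant under conjugation by `K`. -/
def Inv (K N : Subgroup H) : Prop := ∀ g ∈ K, ∀ a ∈ N, g * a * g⁻¹ ∈ N

lemma le_of_conj {K B S W : Subgroup H} (hBK : Inv K B)
    (hmin : ∀ N : Subgroup H, Inv K N → N ≤ B → N = ⊥ ∨ N = B)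
    (hS : NB B S) (hS1 : S ≠ ⊥) (hW : ∀ h ∈ K, ∀ s ∈ S, h * s * h⁻¹ ∈ W) : B ≤ W := by
  set C : Subgroup H := Subgroup.closure {x | ∃ h ∈ K, ∃ s ∈ S, h * s * h⁻¹ = x} with hC
  have h1 : C ≤ B := by
    rw [hC, Subgroup.closure_le]
    rintro _ ⟨h, hh, s, hs, rfl⟩
    exact hBK h hh s (hS.1 hs)
  have h2 : C ≤ W := by
    rw [hC, Subgroup.closure_le]
    rintro _ ⟨h, hh, s, hs, rfl⟩
    exact hW h hh s hs
  have h3 : Inv K C := by
    intro g hg a ha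
    have h4 : C ≤ cj g⁻¹ C := by
      rw [hC, Subgroup.closure_le, ← hC]
      rintro _ ⟨h, hh, s, hs, rfl⟩
      show g⁻¹⁻¹ * (h * s * h⁻¹) * g⁻¹ ∈ C
      apply Subgroup.subset_closure
      exact ⟨g * h, K.mul_mem hg hh, s, hs, by group⟩
    have h5 := h4 ha
    rw [mem_cj, inv_inv] at h5
    exact h5
  rcases hmin C h3 h1 with h4 | h4
  · exfalso
    apply hS1
    rw [eq_bot_iff, ← h4]
    intro s hs
    exact Subgroup.subset_closure ⟨1, K.one_mem, s, hs, by simp⟩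
  · rw [← h4]; exact h2

lemma compl [Finite H] {K B : Subgroup H} (hBK : Inv K B) (hB : B ≠ ⊥)
    (hmin : ∀ N : Subgroup H, Inv K N → N ≤ B → N = ⊥ ∨ N = B)
    {N : Subgroup H} (hN : NB B N) :
    ∃ M : Subgroup H, NB B M ∧ M ⊓ N = ⊥ ∧ ∀ b ∈ B, ∃ m ∈ M, ∃ n ∈ N, m * n = b := by
  classical
  have hne : ({M | NB B M ∧ M ⊓ N = ⊥} : Set (Subgroup H)).Nonempty := by
    refine ⟨⊥, ⟨bot_le, ?_⟩, by simp⟩
    intro b _ n hn
    rw [Subgroup.mem_bot] at hn ⊢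
    rw [hn]; group
  obtain ⟨M, hM⟩ := (Set.toFinite ({M | NB B M ∧ M ⊓ N = ⊥} : Set (Subgroup H))).exists_maximal hne
  obtain ⟨⟨hMB, hMN⟩, hmax⟩ := hM
  refine ⟨M, hMB, hMN, ?_⟩
  by_contra hcon
  push Not at hcon
  obtain ⟨b, hb, hbn⟩ := hcon
  obtain ⟨S, hS, hS1, hSmin⟩ := exists_minNB hB
  have hW := NB_pr hMB hN
  have hex : ∃ h ∈ K, ∃ s ∈ S, h * s * h⁻¹ ∉ pr B M N hMB hN := by
    by_contra hc
    push Not at hc
    obtain ⟨m, hm, n, hn, e⟩ := le_of_conj hBK hmin hS hS1 hc hb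
    exact hbn m hm n hn e
  obtain ⟨h, hhK, s, hs, hsW⟩ := hex
  have hS' : NB B (cj h S) := NB_cj hBK hS hhK
  have hbot : ∀ t, t ∈ cj h S → t ∈ pr B M N hMB hN → t = 1 := by
    have hT : NB B (cj h⁻¹ (cj h S ⊓ pr B M N hMB hN)) := NB_cj hBK (NB_inf hS' hW) (K.inv_mem hhK)
    rcases hSmin _ hT (by
      intro x hx
      have h0 : h⁻¹ * (h⁻¹⁻¹ * x * h⁻¹) * h ∈ S := hx.1
      have e : h⁻¹ * (h⁻¹⁻¹ * x * h⁻¹) * h = x := by group
      rwa [e] at h0) with h1 | h1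
    · intro t ht htW
      have h2 : h⁻¹ * t * h ∈ cj h⁻¹ (cj h S ⊓ pr B M N hMB hN) := by
        rw [mem_cj]
        have e : h⁻¹⁻¹ * (h⁻¹ * t * h) * h⁻¹ = t := by group
        rw [e]; exact ⟨ht, htW⟩
      rw [h1, Subgroup.mem_bot] at h2
      have : t = h * (h⁻¹ * t * h) * h⁻¹ := by group
      rw [this, h2]; group
    · exfalso
      rw [← h1] at hs
      have := hs.2
      simp only [inv_inv] at this
      exact hsW this
  have hM' := NB_pr hMB hS'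
  have hM'N : pr B M (cj h S) hMB hS' ⊓ N = ⊥ := by
    rw [eq_bot_iff]
    rintro x ⟨⟨m, hm, t, ht, e⟩, hxN⟩
    have e2 : m⁻¹ * x = t := by rw [← e]; group
    have h3 : t ∈ pr B M N hMB hN := ⟨m⁻¹, M.inv_mem hm, x, hxN, e2⟩
    have h4 := hbot t ht h3
    rw [h4, mul_one] at e
    have : x ∈ M ⊓ N := ⟨e ▸ hm, hxN⟩
    rwa [hMN] at this
  have h5 : pr B M (cj h S) hMB hS' ≤ M :=
    hmax ⟨hM', hM'N⟩ (fun x hx => ⟨x, hx, 1, Subgroup.one_mem _, by simp⟩)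
  apply hsW
  refine ⟨h * s * h⁻¹, h5 ⟨1, M.one_mem, h * s * h⁻¹, ?_, by simp⟩, 1, N.one_mem, by simp⟩
  rw [mem_cj]
  have e : h⁻¹ * (h * s * h⁻¹) * h = s := by group
  rw [e]; exact hs

lemma NB_comm {B U : Subgroup H} (hU : NB B U) : NB B ⁅U, U⁆ := by
  have hle : ⁅U, U⁆ ≤ U := by
    rw [Subgroup.commutator_le]
    intro a ha b hb
    rw [commutatorElement_def]
    exact U.mul_mem (U.mul_mem (U.mul_mem ha hb) (U.inv_mem ha)) (U.inv_mem hb)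
  refine ⟨hle.trans hU.1, fun b hb => ?_⟩
  have key : ⁅U, U⁆ ≤ cj b⁻¹ ⁅U, U⁆ := by
    rw [Subgroup.commutator_le]
    intro a ha c hc
    rw [mem_cj]
    have e : b⁻¹⁻¹ * ⁅a, c⁆ * b⁻¹ = ⁅b * a * b⁻¹, b * c * b⁻¹⁆ := by
      simp only [commutatorElement_def]; group
    rw [e]
    exact Subgroup.commutator_mem_commutator (hU.2 b hb a ha) (hU.2 b hb c hc)
  intro n hn
  have := key hn
  rw [mem_cj] at this
  simpa using this

/-- Abelian normal subgroups of `B` are trivial. -/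
lemma abelian_bot [Finite H] {K B : Subgroup H} (hBK : Inv K B) (hB : B ≠ ⊥)
    (hmin : ∀ N : Subgroup H, Inv K N → N ≤ B → N = ⊥ ∨ N = B)
    (hZ : ∀ x ∈ B, (∀ y ∈ B, x * y = y * x) → x = 1)
    {X : Subgroup H} (hX : NB B X) (hab : ∀ x ∈ X, ∀ y ∈ X, x * y = y * x) :
    ∀ x ∈ X, x = 1 := by
  obtain ⟨M, hM, hMX, hall⟩ := compl hBK hB hmin hX
  intro x hx
  apply hZ x (hX.1 hx)
  intro y hy
  obtain ⟨m, hm, n, hn, rfl⟩ := hall y hy
  have h1 : m * x * m⁻¹ * x⁻¹ ∈ M ⊓ X := by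
    refine ⟨?_, X.mul_mem (hX.2 m (hM.1 hm) x hx) (X.inv_mem hx)⟩
    have h2 := hM.2 x (hX.1 hx) m⁻¹ (M.inv_mem hm)
    have e : m * x * m⁻¹ * x⁻¹ = m * (x * m⁻¹ * x⁻¹) := by group
    rw [e]; exact M.mul_mem hm h2
  rw [hMX, Subgroup.mem_bot] at h1
  have h3 : m * x = x * m := by
    have e : m * x = (m * x * m⁻¹ * x⁻¹) * (x * m) := by group
    rw [e, h1, one_mul]
  rw [← mul_assoc, ← h3, mul_assoc, hab x hx n hn, ← mul_assoc]

/-- A normal subgroup of `B` is perfect. -/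
theorem perfect_of_normal [Finite H] {K B : Subgroup H} (hBK : Inv K B) (hB : B ≠ ⊥)
    (hmin : ∀ N : Subgroup H, Inv K N → N ≤ B → N = ⊥ ∨ N = B)
    (hZ : ∀ x ∈ B, (∀ y ∈ B, x * y = y * x) → x = 1)
    {U : Subgroup H} (hU : U ≤ B) (hUn : ∀ b ∈ B, ∀ u ∈ U, b * u * b⁻¹ ∈ U) :
    U ≤ ⁅U, U⁆ := by
  have hNU : NB B U := ⟨hU, hUn⟩
  have hD := NB_comm hNU
  have hDU : ⁅U, U⁆ ≤ U := by
    rw [Subgroup.commutator_le]
    intro a ha b hb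
    rw [commutatorElement_def]
    exact U.mul_mem (U.mul_mem (U.mul_mem ha hb) (U.inv_mem ha)) (U.inv_mem hb)
  obtain ⟨M, hM, hMD, hall⟩ := compl hBK hB hmin hD
  have hX := NB_inf hNU hM
  have hab : ∀ x ∈ U ⊓ M, ∀ y ∈ U ⊓ M, x * y = y * x := by
    intro x hx y hy
    have h1 : ⁅x, y⁆ ∈ M ⊓ ⁅U, U⁆ := by
      refine ⟨?_, Subgroup.commutator_mem_commutator hx.1 hy.1⟩
      rw [commutatorElement_def]
      exact M.mul_mem (M.mul_mem (M.mul_mem hx.2 hy.2) (M.inv_mem hx.2)) (M.inv_mem hy.2)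
    rw [hMD, Subgroup.mem_bot, commutatorElement_eq_one_iff_mul_comm] at h1
    exact h1
  have h1 := abelian_bot hBK hB hmin hZ hX hab
  intro u hu
  obtain ⟨m, hm, d, hd, e⟩ := hall u (hU hu)
  have hmU : m ∈ U := by
    have : m = u * d⁻¹ := by rw [← e]; group
    rw [this]; exact U.mul_mem hu (U.inv_mem (hDU hd))
  have := h1 m ⟨hmU, hm⟩
  rw [this, one_mul] at e
  rw [← e]; exact hd

end Pool.Agent.H4.UM
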